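import Pool.Agent.U269.CP.LinMain3

set_option autoImplicit false

/-!
A linear improvement of the lower bound `b(k) ≥ k/2`.
-/

namespace Pool.Agent.Results.MP_6af60b_co.LinearGain

open Pool.Agent.TH455

/-- `b(k) ≥ 11k/20` for every `k ≥ 1`: every finite graph of maximum average degree less than
`11k/20` has correspondence packing number at most `k`. -/
theorem result (k : ℕ) (hk : 1 ≤ k) (V : Type) [Fintype V] (G : SimpleGraph V)
    (hG : MadLT G (11 / 20 * (k : ℝ))) :
    CorrPackable G k ∧ mCorrPackingNumber G ≤ k := by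
  have h := Pool.Agent.U269.CP.corrPackable_lin2 G (k := k) (by linarith) hG
  exact ⟨h, Nat.sInf_le ⟨hk, h⟩⟩

end Pool.Agent.Results.MP_6af60b_co.LinearGain
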