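import Pool.Agent.U269.CP.Mad

set_option autoImplicit false

/-!
A lower bound for the thresholds `b(k)`, `k` odd, of the correspondence packing number.
-/

namespace Pool.Agent.Results.MP_6af60b_co.OddThreshold

open Pool.Agent.TH455

/-- `b(2j - 1) ≥ j + 1` for every `j ≥ 4`: every finite graph of maximum average degree less than
`j + 1` has correspondence packing number at most `2j - 1`. -/
theorem result (j : ℕ) (hj : 4 ≤ j) (V : Type) [Fintype V] (G : SimpleGraph V)
    (hG : MadLT G ((j : ℝ) + 1)) :
    CorrPackable G (2 * j - 1) ∧ mCorrPackingNumber G ≤ 2 * j - 1 := by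
  have h := Pool.Agent.U269.CP.corrPackable_odd G hj hG
  exact ⟨h, Nat.sInf_le ⟨by omega, h⟩⟩

end Pool.Agent.Results.MP_6af60b_co.OddThreshold
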